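import Pool.Agent.Y17.G.Defs
import Pool.Agent.Y434.N.Rhq

/-!
# RHG: genus theory divisibility for the number of vectors (project Z17G)
-/

set_option autoImplicit false

namespace Pool.Agent.Y179.G

open Finset
open Pool.Agent.Z700 (vec pr)
open Pool.Agent.Y434.N (sum_per sum_refl sum_crt pr_insert pr_empty pr_ne dvd_pr jac_prod jac_mod
  jac_add jac_sub jac_zero jac_sq hs H hs_insert sum_sq sum_leg)

theorem jac_pr (a : ℤ) (S : Finset ℕ) (hS : ∀ p ∈ S, p ≠ 0) :
    jacobiSym a (pr S) = ∏ p ∈ S, jacobiSym a p := by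
  have h := jac_prod a 1 one_ne_zero S hS
  rwa [one_mul, jacobiSym.one_right, one_mul] at h

/-- the sum over a full period -/
theorem full_zero (S : Finset ℕ) (hS : ∀ p ∈ S, p.Prime ∧ p ≠ 2) (hne : S.Nonempty) :
    ∑ u ∈ range (pr S), jacobiSym (u : ℤ) (pr S) = 0 := by
  obtain ⟨p0, hp0⟩ := hne
  set T := S.erase p0 with hT
  have hST : S = insert p0 T := (Finset.insert_erase hp0).symm
  have h0 : p0 ∉ T := Finset.notMem_erase p0 S
  have hT' : ∀ p ∈ T, p.Prime ∧ p ≠ 2 := fun p hp => hS p (Finset.mem_of_mem_erase hp)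
  have hpr : pr T ≠ 0 := pr_ne fun p hp => (hT' p hp).1.ne_zero
  have hcop : Nat.Coprime (pr T) p0 := by
    unfold Pool.Agent.Z700.pr
    refine Nat.Coprime.prod_left fun p hp => ?_
    exact (Nat.coprime_primes (hT' p hp).1 (hS p0 hp0).1).2 (fun h => h0 (h ▸ hp))
  have h1 : pr S = pr T * p0 := by
    rw [hST, pr_insert h0, mul_comm]
  rw [h1]
  have h2 : ∀ u ∈ range (pr T * p0), jacobiSym (u : ℤ) (pr T * p0) =
      jacobiSym (u : ℤ) (pr T) * jacobiSym (u : ℤ) p0 := fun u _ =>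
    jacobiSym.mul_right' _ hpr (hS p0 hp0).1.ne_zero
  rw [Finset.sum_congr rfl h2, sum_crt (fun u => jacobiSym (u : ℤ) (pr T))
    (fun u => jacobiSym (u : ℤ) p0) (pr T) p0 (Nat.pos_of_ne_zero hpr) (hS p0 hp0).1.pos hcop
    (fun u => jac_mod u _) (fun u => jac_mod u _), sum_leg p0 (hS p0 hp0).1 (hS p0 hp0).2,
    mul_zero]

theorem hs_empty (N c : ℕ) (hfull : ∑ u ∈ range N, jacobiSym (u : ℤ) N = 0) (hc : Odd c) :
    hs N c ∅ = H N := by
  obtain ⟨t, rfl⟩ := hc
  unfold Pool.Agent.Y434.N.hs Pool.Agent.Y434.N.H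
  simp only [Finset.prod_empty, mul_one]
  have h1 : (N * (2 * t + 1) + 1) / 2 = t * N + (N + 1) / 2 := by
    have : N * (2 * t + 1) + 1 = 2 * (t * N) + (N + 1) := by ring
    rw [this]
    omega
  rw [h1, sum_per (fun u => jacobiSym (u : ℤ) N) N (fun u => jac_add u N) t, hfull]
  ring

theorem hs_eq (N : ℕ) (hN : Odd N) (hfull : ∑ u ∈ range N, jacobiSym (u : ℤ) N = 0)
    (T : Finset ℕ) (hT : ∀ p ∈ T, p.Prime) :
    ∀ c : ℕ, Odd (pr T * c) → hs N (pr T * c) T = H N * ∏ p ∈ T, (1 - jacobiSym (p : ℤ) N) := by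
  induction T using Finset.induction_on with
  | empty =>
    intro c hc
    rw [hs_empty N _ hfull hc, Finset.prod_empty, mul_one]
  | insert p0 T h0 ih =>
    intro c hc
    have hT' : ∀ p ∈ T, p.Prime := fun p hp => hT p (mem_insert_of_mem hp)
    have hp0 : p0.Prime := hT p0 (mem_insert_self _ _)
    rw [pr_insert h0, mul_assoc] at hc ⊢
    rw [hs_insert N _ hN p0 hp0 T hT' h0 hc, Finset.prod_insert h0]
    have h1 : hs N (p0 * (pr T * c)) T = H N * ∏ p ∈ T, (1 - jacobiSym (p : ℤ) N) := by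
      have h2 : p0 * (pr T * c) = pr T * (p0 * c) := by ring
      rw [h2] at hc ⊢
      exact ih hT' (p0 * c) hc
    rw [h1, ih hT' c (Nat.odd_mul.1 hc).2]
    ring

/-- the number of units -/
theorem full_sq (P : Finset ℕ) (hP : ∀ p ∈ P, p.Prime ∧ p ≠ 2) :
    ∑ u ∈ range (pr P), ∏ p ∈ P, jacobiSym (u : ℤ) p ^ 2 = ∏ p ∈ P, ((p : ℤ) - 1) := by
  induction P using Finset.induction_on with
  | empty => simp [pr_empty]
  | insert p0 P h0 ih =>
    have hp0 := hP p0 (mem_insert_self _ _)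
    have hP' : ∀ p ∈ P, p.Prime ∧ p ≠ 2 := fun p hp => hP p (mem_insert_of_mem hp)
    have h1 : pr (insert p0 P) = pr P * p0 := by
      rw [pr_insert h0]
      ring
    have hpr : pr P ≠ 0 := pr_ne fun p hp => (hP' p hp).1.ne_zero
    have hcop : Nat.Coprime (pr P) p0 := by
      unfold Pool.Agent.Z700.pr
      refine Nat.Coprime.prod_left fun p hp => ?_
      exact (Nat.coprime_primes (hP' p hp).1 hp0.1).2 (fun h => h0 (h ▸ hp))
    rw [h1, Finset.prod_insert h0]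
    have h2 : ∀ u ∈ range (pr P * p0), ∏ p ∈ insert p0 P, jacobiSym (u : ℤ) p ^ 2 =
        (∏ p ∈ P, jacobiSym (u : ℤ) p ^ 2) * jacobiSym (u : ℤ) p0 ^ 2 := by
      intro u _
      rw [Finset.prod_insert h0]
      ring
    have h3 : ∀ (u n N : ℕ), N ∣ n → jacobiSym ((u % n : ℕ) : ℤ) N = jacobiSym (u : ℤ) N := by
      intro u n N h
      rw [← jac_mod (u % n) N, Nat.mod_mod_of_dvd u h, jac_mod]
    rw [Finset.sum_congr rfl h2, sum_crt (fun u => ∏ p ∈ P, jacobiSym (u : ℤ) p ^ 2)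
      (fun u => jacobiSym (u : ℤ) p0 ^ 2) (pr P) p0
      (Nat.pos_of_ne_zero hpr) hp0.1.pos hcop, ih hP', sum_sq p0 hp0.1]
    · ring
    · intro u
      refine Finset.prod_congr rfl fun p hp => ?_
      rw [h3 u _ p (dvd_pr hp)]
    · intro u
      rw [h3 u _ p0 dvd_rfl]

/-- the inner sums -/
def inner (P S : Finset ℕ) : ℤ := ∑ u ∈ range ((pr P + 1) / 2),
  (∏ p ∈ S, jacobiSym (u : ℤ) p) * ∏ p ∈ P \ S, jacobiSym (u : ℤ) p ^ 2

theorem odd_pr (P : Finset ℕ) (hP : ∀ p ∈ P, p.Prime ∧ p ≠ 2) : Odd (pr P) := by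
  unfold Pool.Agent.Z700.pr
  exact Finset.prod_induction (fun p => p) Odd (fun _ _ => Odd.mul) odd_one
    fun p hp => (hP p hp).1.odd_of_ne_two (hP p hp).2

theorem inner_empty (P : Finset ℕ) (hP : ∀ p ∈ P, p.Prime ∧ p ≠ 2) (hne : P.Nonempty) :
    (2 : ℤ) ^ (P.card - 1) ∣ inner P ∅ := by
  have hodd := odd_pr P hP
  obtain ⟨M, hM⟩ := hodd
  have h1 : 2 * inner P ∅ = ∏ p ∈ P, ((p : ℤ) - 1) := by
    rw [← full_sq P hP, sum_refl (fun u : ℕ => ∏ p ∈ P, jacobiSym (u : ℤ) p ^ 2) (pr P) M hM ?_ 1 ?_]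
    · unfold inner
      have e : (pr P + 1) / 2 = M + 1 := by omega
      rw [e]
      simp only [Finset.prod_empty, one_mul, Finset.sdiff_empty]
      norm_num
    · obtain ⟨p, hp⟩ := hne
      refine Finset.prod_eq_zero hp ?_
      rw [jac_zero p (hP p hp).1.one_lt]
      rfl
    · intro u _ h2
      rw [one_mul]
      refine Finset.prod_congr rfl fun p hp => ?_
      rw [jac_sub u _ p (dvd_pr hp) h2.le, jac_sq _ _ (hP p hp).1, jac_sq _ _ (hP p hp).1]
      simp only [dvd_neg]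
  have h2 : (2 : ℤ) ^ P.card ∣ ∏ p ∈ P, ((p : ℤ) - 1) := by
    rw [← Finset.prod_const]
    refine Finset.prod_dvd_prod_of_dvd _ _ fun p hp => ?_
    have := (hP p hp).1.odd_of_ne_two (hP p hp).2
    obtain ⟨k, hk⟩ := this
    rw [hk]
    push_cast
    exact ⟨k, by ring⟩
  rw [← h1] at h2
  have h3 : P.card = (P.card - 1) + 1 := by
    have := hne.card_pos
    omega
  rw [h3, pow_succ'] at h2
  exact Int.dvd_of_mul_dvd_mul_left (by norm_num) h2

theorem inner_self (P : Finset ℕ) (hP : ∀ p ∈ P, p.Prime ∧ p ≠ 2) : inner P P = H (pr P) := by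
  unfold inner Pool.Agent.Y434.N.H
  refine Finset.sum_congr rfl fun u _ => ?_
  rw [Finset.sdiff_self, Finset.prod_empty, mul_one,
    jac_pr _ P fun p hp => (hP p hp).1.ne_zero]

theorem inner_mid (P S : Finset ℕ) (hP : ∀ p ∈ P, p.Prime ∧ p ≠ 2) (hS : S ⊆ P)
    (hne : S.Nonempty) : inner P S =
      H (pr S) * ∏ p ∈ P \ S, (1 - jacobiSym (p : ℤ) (pr S)) := by
  have hS' : ∀ p ∈ S, p.Prime ∧ p ≠ 2 := fun p hp => hP p (hS hp)
  have hD : ∀ p ∈ P \ S, p.Prime ∧ p ≠ 2 := fun p hp => hP p (mem_sdiff.1 hp).1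
  have h5 : pr P = pr S * pr (P \ S) := by
    unfold Pool.Agent.Z700.pr
    rw [mul_comm, Finset.prod_sdiff hS]
  rw [← hs_eq (pr S) (odd_pr S hS') (full_zero S hS' hne) (P \ S) (fun p hp => (hD p hp).1) 1
    (by rw [mul_one]; exact odd_pr _ hD)]
  unfold inner Pool.Agent.Y434.N.hs
  rw [mul_one, ← h5]
  refine Finset.sum_congr rfl fun u _ => ?_
  rw [jac_pr _ S fun p hp => (hS' p hp).1.ne_zero]

theorem rhs_dvd (P : Finset ℕ) : (2 : ℤ) ^ P.card ∣ ∑ S ∈ P.powerset, inner P S := by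
  have h1 : ∑ S ∈ P.powerset, inner P S = ∑ u ∈ range ((pr P + 1) / 2),
      ∏ p ∈ P, (jacobiSym (u : ℤ) p + jacobiSym (u : ℤ) p ^ 2) := by
    unfold inner
    rw [Finset.sum_comm]
    refine Finset.sum_congr rfl fun u _ => ?_
    rw [Finset.prod_add]
  rw [h1]
  refine Finset.dvd_sum fun u _ => ?_
  rw [← Finset.prod_const]
  refine Finset.prod_dvd_prod_of_dvd _ _ fun p _ => ?_
  rcases jacobiSym.trichotomy (u : ℤ) p with h | h | h <;> rw [h] <;> norm_num

theorem even_one_sub (p : ℕ) (hp : p.Prime) (S : Finset ℕ) (hS : ∀ s ∈ S, s.Prime)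
    (hpS : p ∉ S) : (2 : ℤ) ∣ 1 - jacobiSym (p : ℤ) (pr S) := by
  have hcop : Int.gcd (p : ℤ) (pr S : ℤ) = 1 := by
    rw [Int.gcd_natCast_natCast]
    unfold Pool.Agent.Z700.pr
    refine Nat.Coprime.prod_right fun s hs => ?_
    exact (Nat.coprime_primes hp (hS s hs)).2 (fun h => hpS (h ▸ hs))
  rcases jacobiSym.eq_one_or_neg_one hcop with h | h <;> rw [h] <;> norm_num

theorem main : ∀ P : Finset ℕ, (∀ p ∈ P, p.Prime ∧ p ≠ 2) → P.Nonempty →
    (2 : ℤ) ^ (P.card - 1) ∣ H (pr P) := by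
  intro P
  induction P using Finset.strongInduction with
  | H P ih =>
  intro hP hne
  have h1 := rhs_dvd P
  have hPm : P ∈ P.powerset := mem_powerset_self P
  rw [← Finset.sum_erase_add _ _ hPm, inner_self P hP] at h1
  have h2 : (2 : ℤ) ^ (P.card - 1) ∣ ∑ S ∈ P.powerset.erase P, inner P S := by
    refine Finset.dvd_sum fun S hS => ?_
    rw [mem_erase, mem_powerset] at hS
    rcases S.eq_empty_or_nonempty with rfl | hSne
    · exact inner_empty P hP hne
    · rw [inner_mid P S hP hS.2 hSne]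
      have h3 := ih S (lt_of_le_of_ne hS.2 hS.1) (fun p hp => hP p (hS.2 hp)) hSne
      have h4 : (2 : ℤ) ^ (P \ S).card ∣ ∏ p ∈ P \ S, (1 - jacobiSym (p : ℤ) (pr S)) := by
        rw [← Finset.prod_const]
        refine Finset.prod_dvd_prod_of_dvd _ _ fun p hp => ?_
        rw [mem_sdiff] at hp
        exact even_one_sub p (hP p hp.1).1 S (fun s hs => (hP s (hS.2 hs)).1) hp.2
      have h5 := mul_dvd_mul h3 h4
      rw [← pow_add] at h5
      refine dvd_trans (pow_dvd_pow _ ?_) h5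
      have h6 : (P \ S).card = P.card - S.card := Finset.card_sdiff_of_subset hS.2
      have h7 := Finset.card_le_card hS.2
      have h8 := hSne.card_pos
      omega
  have h3 : (2 : ℤ) ^ (P.card - 1) ∣ 2 ^ P.card := pow_dvd_pow _ (Nat.sub_le _ _)
  exact (dvd_add_right h2).1 (h3.trans h1)

theorem t_RHG (h : Pool.Agent.Y17.N.S_HALF) : Pool.Agent.Y17.G.S_RHG := by
  intro n hn hn8
  have hpr : pr n.primeFactors = n := Nat.prod_primeFactors_of_squarefree hn
  have hP : ∀ p ∈ n.primeFactors, p.Prime ∧ p ≠ 2 := by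
    intro p hp
    refine ⟨Nat.prime_of_mem_primeFactors hp, ?_⟩
    rintro rfl
    have := Nat.dvd_of_mem_primeFactors hp
    omega
  have hne : n.primeFactors.Nonempty := by
    rw [Nat.nonempty_primeFactors]
    omega
  obtain ⟨k, hk⟩ := main n.primeFactors hP hne
  refine ⟨k, ?_⟩
  rw [h n hn hn8]
  have h9 : (range n).filter (fun u => 2 * u < n) = range ((n + 1) / 2) := by
    ext u
    rw [mem_filter, mem_range, mem_range]
    omega
  rw [h9]
  rw [hpr] at hk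
  unfold Pool.Agent.Y434.N.H at hk
  rw [hk]
  ring

end Pool.Agent.Y179.G
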